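import Mathlib
import Pool.Agent.Y82.WT.Good

/-!
# Weight 2 characters of `GL_2` over number fields: small primes with the Ramanujan-Petersson bound for most members
of a family

Let `K` be any number field and let `θ_1, …, θ_r` be nontrivial characters of the Hecke algebra `𝕋_1(𝔫)`, not
associated with Hecke characters of `K` or of a quadratic extension of `K` (those satisfy the bound), for example the
conjugates of one character `θ`. We show: for all natural numbers `x`, `y`, `w` with `y + w > 0` there are a prime `v` not dividing `𝔫` and a `k ≥ 1` with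

  `(N v)^k ≤ A (N 𝔫)^{r M (1 + ε)}`, `M = 3 x + 5 y + 15 w`,

such that the number `z` of the `θ_i` with `|θ_i(T_v)| > 2 (N v)^{1/2}` satisfies `(M + μ) z < μ r`, where `-μ` is the
minimum of `f(u) = x (u - 1) + y (u² - 3 u + 1) + w (u - 1) (u² - 3 u + 1)` on `[0, 4]`, and `A` depends only on `K`,
`r`, `x`, `y`, `w`, `ε`. Examples:

* `(x, y, w) = (0, 0, 1)`: `f(u) = u (u - 2)² - 1`, so `μ = 1` and `z < r / 16`, with the exponent `15 r (1 + ε)`;
* `(x, y, w) = (5, 4, 4)`: `f(u) = u (2 u - 3)² - 5`, so `μ = 5` and `z < r / 20`, with the exponent `95 r (1 + ε)`;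
  this is the best possible proportion for polynomials `f` of degree 3.

So up to 16 characters of level `𝔫` satisfy the bound at a common prime power `≤ A (N 𝔫)^{15 r (1 + ε)}`, and up to 20
at one `≤ A (N 𝔫)^{95 r (1 + ε)}`. In particular, if the field `E` generated by the values of `θ` has degree at most 20,
then there is a `v` in this range for which all conjugates of `θ(T_v)` satisfy the bound, so that
`X² - θ(T_v) X + θ(S_v) N v` and all its conjugates have only zeros of absolute value `(N v)^{1/2}`, as if `θ` came from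
an abelian variety; for arbitrary `E` this holds for more than 19 of 20 conjugates.

Known before: the bound holds for `K = ℚ` and more generally for totally real and for CM fields; for the other fields it
holds for each `θ` outside a set of primes of density at most `1 / 35` (Kim and Shahidi), without any bound for the
first prime. A uniform bound for the least prime at which one, or up to nine, cuspidal representations of `GL_2` over a
number field are tempered is in the hand-ins `LeastTemperedPlace`, `SimultaneouslyTempered` of `MP_8410ab_nt`; new are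
larger families and the proportion of the good members.

The proof applies a uniform version of Landau's theorem (`Pool.Agent.TH949.UL`) to

  `∏_i L(s, Ad θ_i)^x L(s, A⁴ θ_i)^y L(s, Ad θ_i × A⁴ θ_i)^w`, `A⁴ = Sym⁴ ⊗ ω^{-2}`.

If `a`, `b` are the Satake parameters of `θ_i` at `v` and `u = |a^k + b^k|²`, the coefficient of the logarithm is
`∑_i f(u_i) / k`. If `θ_i` violates the bound at `v`, then `u_i ≥ 4` for all `k` and `f(u_i) ≥ f(4) = M`; otherwise
`f(u_i) ≥ -μ`. So a prime power with a negative coefficient is as required.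

Notes on the data. For `v` not dividing `𝔫` the Satake parameters `a v`, `b v` are the zeros of
`X² - (N v)^{-1/2} θ(T_v) X + θ(S_v)`; `|θ(S_v)| = 1`. `WeightTwo` lists what is used of `θ`: unitarity, the bound
`(N v)^{±1/8}` (known with `7/64`), and that `L(s, Ad θ)`, `L(s, A⁴ θ)`, `L(s, Ad θ × A⁴ θ)` are entire, of polynomial
growth in vertical strips, with the usual functional equation (Gelbart, Jacquet; Kim; Jacquet, Piatetski-Shapiro,
Shalika). All this is known for the cuspidal automorphic representations `π` of `GL_2` over `K` belonging to the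
characters `θ` considered: `Ad π` is cuspidal as `π` is not dihedral, and `A⁴ π` is cuspidal, since otherwise `π` would
belong to a projective representation of the Galois group with finite image, which contradicts the weight. The local
parameters at infinity are known: `A^{2j} π` has the factor `Γ_ℝ(s + (j mod 2)) ∏_{i=1}^j Γ_ℂ(s + i)` at a real place and
`Γ_ℂ(s) ∏_{i=1}^j Γ_ℂ(s + i)²` at a complex place, and the local parameter of `Ad π × A⁴ π` is the sum of those of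
`A² π`, `A⁴ π` and `A⁶ π`. The shifts `κ` are written in terms of `Γ_ℝ`, as `Γ_ℂ(s) = Γ_ℝ(s) Γ_ℝ(s + 1)`. At the primes
`v` dividing `𝔫` the reciprocal roots `β v i` of the local factor are zero or of absolute value 1 or positive: if `π_v`
is not tempered, it is a twist of an unramified representation and the roots are positive, and if `π_v` is special, they
are of the form `(N v)^{-i}`. The conductor is bounded with the local exponents: if `a` is the exponent of `𝔫` at `v`, a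
ramified constituent of dimension `n` of the local parameter has a conductor exponent `≤ n a`, and the special
representation has the exponents `2`, `4`, `6` for `A²`, `A⁴`, `A⁶`; an unramified constituent gives a root of absolute
value 1 which counts with `(N v)^1`.
-/

set_option autoImplicit false

namespace Pool.Agent.Results.MP_4819b8_nt.FamiliesOfCharacters

open NumberField IsDedekindDomain

/-- the finite places of `K` outside `S` -/
abbrev Places {K : Type} [Field K] [NumberField K] (S : Finset (HeightOneSpectrum (𝓞 K))) :=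
  {v : HeightOneSpectrum (𝓞 K) // v ∉ S}

/-- the norm of a finite place -/
noncomputable def Nm {K : Type} [Field K] [NumberField K] (v : HeightOneSpectrum (𝓞 K)) : ℕ :=
  Ideal.absNorm v.asIdeal

/-- the trace of `Ad` in terms of `u = |a + b|²` -/
def ad (u : ℝ) : ℝ := u - 1

/-- the trace of `A⁴ = Sym⁴ ⊗ det^{-2}` in terms of `u = |a + b|²` -/
def four (u : ℝ) : ℝ := u ^ 2 - 3 * u + 1

/-- `Γ_ℝ(s + (j mod 2)) ∏_{i=1}^j Γ_ℂ(s + i)`: the factor of `A^{2j}` at a real place -/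
def realShifts (j : ℕ) : Multiset ℕ := {j % 2} + ∑ i ∈ Finset.range j, {i + 1, i + 2}

/-- `Γ_ℂ(s) ∏_{i=1}^j Γ_ℂ(s + i)²`: the factor of `A^{2j}` at a complex place -/
def complexShifts (j : ℕ) : Multiset ℕ := {0, 1} + ∑ i ∈ Finset.range j, {i + 1, i + 2, i + 1, i + 2}

open Classical in
/-- The `L`-function of degree `m = ∑_{j ∈ J} (2 j + 1)`, whose Euler product outside `S` is
`exp ∑ c(v, k) / k (N v)^{-ks}` and whose Gamma factors are those of `∑_{j ∈ J} A^{2j}`, is entire, with the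
functional equation; `β v i` are the local roots at the places of `S`, `Q²` is the conductor. -/
def Entire {K : Type} [Field K] [NumberField K] (S : Finset (HeightOneSpectrum (𝓞 K))) (𝔫 : Ideal (𝓞 K))
    (J : Finset ℕ) (c : Places S → ℕ → ℝ) : Prop :=
  ∃ (β : HeightOneSpectrum (𝓞 K) → Fin (∑ j ∈ J, (2 * j + 1)) → ℂ)
    (κ : Fin ((∑ j ∈ J, (2 * j + 1)) * Module.finrank ℚ K) → ℕ) (Q : ℝ) (ω : ℂ) (F Ξ : ℂ → ℂ),
    (∀ v ∈ S, ∀ i, ‖β v i‖ = 1 ∨ ∃ x : ℝ, 0 ≤ x ∧ x < Nm v ∧ β v i = x) ∧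
    Multiset.map κ Finset.univ.val =
      InfinitePlace.nrRealPlaces K • ∑ j ∈ J, realShifts j +
        InfinitePlace.nrComplexPlaces K • ∑ j ∈ J, complexShifts j ∧
    1 ≤ Q ∧ Q ^ 2 * ∏ v ∈ S, ∏ i, (if ‖β v i‖ = 1 then (Nm v : ℝ) else 1) ≤
      (|(discr K : ℝ)| * Ideal.absNorm 𝔫) ^ (∑ j ∈ J, (2 * j + 1)) ∧
    ‖ω‖ = 1 ∧ Differentiable ℂ F ∧ Differentiable ℂ Ξ ∧
    (∀ a b : ℝ, ∃ (C : ℝ) (A : ℕ), ∀ s : ℂ, a ≤ s.re → s.re ≤ b → ‖F s‖ ≤ C * (1 + |s.im|) ^ A) ∧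
    (∀ s : ℂ, 1 < s.re → F s * ∏ v ∈ S, ∏ i, (1 - β v i * ((Nm v : ℕ) : ℂ) ^ (-s)) =
      Complex.exp (∑' x : Places S × ℕ,
        ((c x.1 (x.2 + 1) / ((x.2 : ℝ) + 1) : ℝ) : ℂ) * (((Nm x.1.1 : ℕ) : ℂ) ^ (-s)) ^ (x.2 + 1))) ∧
    (∀ s : ℂ, 1 < s.re → Ξ s = F s * ((Q : ℂ) ^ s * ∏ j, Complex.Gammaℝ (s + κ j))) ∧
    ∀ s : ℂ, Ξ (1 - s) = ω * Ξ s

/-- What is used of a cuspidal character `θ` of `𝕋_1(𝔫)` (weight 2), not dihedral, with `t v = θ(T_v)`,
`s v = θ(S_v)` for `v` outside the set `S` of the primes dividing `𝔫`, and with the Satake parameters `a v`, `b v`. -/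
structure WeightTwo {K : Type} [Field K] [NumberField K] (S : Finset (HeightOneSpectrum (𝓞 K))) (𝔫 : Ideal (𝓞 K))
    (t s a b : Places S → ℂ) : Prop where
  /-- `S` is the set of the primes dividing the level -/
  level : ∀ v : HeightOneSpectrum (𝓞 K), v ∈ S ↔ v.asIdeal ∣ 𝔫
  /-- `a v`, `b v` are the zeros of `X² - (N v)^{-1/2} θ(T_v) X + θ(S_v)` -/
  roots : ∀ v, t v = ((Nm v.1 : ℝ) ^ (1 / 2 : ℝ) : ℝ) * (a v + b v) ∧ s v = a v * b v
  /-- the Satake parameters are nonzero -/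
  ne_zero : ∀ v, a v ≠ 0 ∧ b v ≠ 0
  /-- the components are unitary: `{a, b}` is stable under `z ↦ 1 / conj z` -/
  unitary : ∀ v, ((starRingEnd ℂ) (a v) = (a v)⁻¹ ∧ (starRingEnd ℂ) (b v) = (b v)⁻¹) ∨
    (starRingEnd ℂ) (a v) = (b v)⁻¹
  /-- a bound towards the Ramanujan conjecture -/
  bound : ∀ v, ‖a v‖ ≤ (Nm v.1 : ℝ) ^ (1 / 8 : ℝ) ∧ ‖b v‖ ≤ (Nm v.1 : ℝ) ^ (1 / 8 : ℝ)
  /-- the adjoint `L`-function -/
  adjoint : Entire S 𝔫 {1} fun v k => ad (‖a v ^ k + b v ^ k‖ ^ 2)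
  /-- the `L`-function of `A⁴` -/
  fourth : Entire S 𝔫 {2} fun v k => four (‖a v ^ k + b v ^ k‖ ^ 2)
  /-- the Rankin-Selberg `L`-function of the two -/
  mixed : Entire S 𝔫 {1, 2, 3} fun v k => ad (‖a v ^ k + b v ^ k‖ ^ 2) * four (‖a v ^ k + b v ^ k‖ ^ 2)

open Pool.Agent.Y82.GL Pool.Agent.Y82.WT Pool.Agent.TH949.UL Pool.Agent.TH949.LT

theorem realShifts_le {j : ℕ} (hj : j ≤ 3) : ∀ x ∈ realShifts j, x ≤ 4 := by
  interval_cases j <;> decide

theorem complexShifts_le {j : ℕ} (hj : j ≤ 3) : ∀ x ∈ complexShifts j, x ≤ 4 := by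
  interval_cases j <;> decide

/-- the shifts are at most `4` -/
theorem shifts_le {K : Type} [Field K] [NumberField K] {J : Finset ℕ} (hJ : ∀ j ∈ J, j ≤ 3) {N : ℕ} {κ : Fin N → ℕ}
    (h : Multiset.map κ Finset.univ.val =
      InfinitePlace.nrRealPlaces K • ∑ j ∈ J, realShifts j +
        InfinitePlace.nrComplexPlaces K • ∑ j ∈ J, complexShifts j) (i : Fin N) : κ i ≤ 4 := by
  have h1 : κ i ∈ Multiset.map κ Finset.univ.val := Multiset.mem_map_of_mem _ (Finset.mem_univ i)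
  rw [h, Multiset.mem_add] at h1
  rcases h1 with h1 | h1
  · have h2 := (Multiset.mem_nsmul.1 h1).2
    rw [Multiset.mem_sum] at h2
    obtain ⟨j, hj, hx⟩ := h2
    exact realShifts_le (hJ j hj) _ hx
  · have h2 := (Multiset.mem_nsmul.1 h1).2
    rw [Multiset.mem_sum] at h2
    obtain ⟨j, hj, hx⟩ := h2
    exact complexShifts_le (hJ j hj) _ hx

/-- a factor `Γ_ℝ(s)` occurs -/
theorem exists_zero {K : Type} [Field K] [NumberField K] {J : Finset ℕ} (hJ : 2 ∈ J) {N : ℕ} {κ : Fin N → ℕ}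
    (h : Multiset.map κ Finset.univ.val =
      InfinitePlace.nrRealPlaces K • ∑ j ∈ J, realShifts j +
        InfinitePlace.nrComplexPlaces K • ∑ j ∈ J, complexShifts j) : ∃ i, κ i = 0 := by
  have hpos : 0 < Module.finrank ℚ K := Module.finrank_pos
  have hcard := InfinitePlace.card_add_two_mul_card_eq_rank K
  have h0 : (0 : ℕ) ∈ Multiset.map κ Finset.univ.val := by
    rw [h, Multiset.mem_add]
    by_cases hr : InfinitePlace.nrRealPlaces K = 0
    · right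
      rw [Multiset.mem_nsmul]
      refine ⟨by omega, ?_⟩
      rw [Multiset.mem_sum]
      exact ⟨2, hJ, by decide⟩
    · left
      rw [Multiset.mem_nsmul]
      refine ⟨hr, ?_⟩
      rw [Multiset.mem_sum]
      exact ⟨2, hJ, by decide⟩
  rw [Multiset.mem_map] at h0
  obtain ⟨i, _, hi⟩ := h0
  exact ⟨i, hi⟩

/-- from `Entire` to the general form -/
theorem good_of_entire {K : Type} [Field K] [NumberField K] {S : Finset (HeightOneSpectrum (𝓞 K))} {𝔫 : Ideal (𝓞 K)}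
    {J : Finset ℕ} {c : Places S → ℕ → ℝ} (hJ : ∀ j ∈ J, j ≤ 3) (h : Entire S 𝔫 J c) {B : ℝ} (hB : 0 ≤ B)
    (hc : ∀ v k, |c v k| ≤ B * (Nm v.1 : ℝ) ^ k) :
    ∃ u : PV K → ℝ, GoodT (∑ j ∈ J, (2 * j + 1)) ((∑ j ∈ J, (2 * j + 1)) * Module.finrank ℚ K)
      (B + (∑ j ∈ J, (2 * j + 1) : ℕ))
      ((|(discr K : ℝ)| * 5 ^ Module.finrank ℚ K * Ideal.absNorm 𝔫) ^ (∑ j ∈ J, (2 * j + 1))) u (2 ∈ J) ∧
      (∀ v ∈ S, ∀ k, 0 ≤ u (v, k)) ∧ ∀ (v : Places S) (k : ℕ), u (v.1, k) = c v (k + 1) / ((k : ℝ) + 1) := by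
  classical
  obtain ⟨β, κ, Q, ω, F, Ξ, hβ, hκ, hQ, hQ2, hω, hF, hΞ, hgr, hE, hΞF, hfe⟩ := h
  obtain ⟨m, hm⟩ : ∃ m : ℕ, m = ∑ j ∈ J, (2 * j + 1) := ⟨_, rfl⟩
  have hκ4 := shifts_le hJ hκ
  have hL : LData ((∑ j ∈ J, (2 * j + 1)) * Module.finrank ℚ K) (fun i => (κ i : ℂ)) Q F := by
    refine ⟨hQ, ?_, fun j => ?_, hF, hgr, Ξ, ω, hω, hΞ, fun s hs => hΞF s (by linarith), hfe⟩
    · refine Multiset.map_congr rfl fun j _ => ?_
      exact Complex.conj_natCast _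
    · rw [Complex.natCast_re]
      have : (0 : ℝ) ≤ κ j := Nat.cast_nonneg _
      linarith
  have hPK : PK (fun i => (κ i : ℂ)) ≤ 5 ^ ((∑ j ∈ J, (2 * j + 1)) * Module.finrank ℚ K) := by
    unfold PK
    calc _ ≤ ∏ _i : Fin ((∑ j ∈ J, (2 * j + 1)) * Module.finrank ℚ K), (5 : ℝ) := by
          refine Finset.prod_le_prod (fun i _ => by positivity) fun i _ => ?_
          rw [Complex.norm_natCast]
          have : (κ i : ℝ) ≤ 4 := by exact_mod_cast hκ4 i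
          linarith
      _ = _ := by simp
  obtain ⟨u, hu, hu1, hu2⟩ := goodT_of (S := S) (e := c) (β := β) (κ := fun i => (κ i : ℂ)) (Q := Q) (B := B)
    (G := F) (R := (|(discr K : ℝ)| * 5 ^ Module.finrank ℚ K * Ideal.absNorm 𝔫) ^ (∑ j ∈ J, (2 * j + 1))) hB hc
    (fun v hv i => by
      rcases hβ v hv i with h1 | ⟨x, hx0, hx, h1⟩
      · rw [h1]
        exact Pool.Agent.TH861.GL3.one_lt_qq v
      · rw [h1, Complex.norm_real, Real.norm_of_nonneg hx0]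
        exact hx)
    (fun v hv i => by
      rcases hβ v hv i with h1 | ⟨x, hx0, hx, h1⟩
      · exact Or.inl h1
      · exact Or.inr ⟨x, hx0, h1⟩) hL
    (by
      have h1 : 0 ≤ ∏ v ∈ S, ∏ i, (if ‖β v i‖ = 1 then (Nm v : ℝ) else 1) :=
        Finset.prod_nonneg fun v _ => Finset.prod_nonneg fun i _ => by split_ifs <;> positivity
      have h2 := one_le_PK (fun i => (κ i : ℂ))
      calc Q ^ 2 * PK (fun i => (κ i : ℂ)) * ∏ v ∈ S, ∏ i, (if ‖β v i‖ = 1 then (Nm v : ℝ) else 1)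
          = (Q ^ 2 * ∏ v ∈ S, ∏ i, (if ‖β v i‖ = 1 then (Nm v : ℝ) else 1)) * PK (fun i => (κ i : ℂ)) := by ring
        _ ≤ (|(discr K : ℝ)| * Ideal.absNorm 𝔫) ^ (∑ j ∈ J, (2 * j + 1)) *
            5 ^ ((∑ j ∈ J, (2 * j + 1)) * Module.finrank ℚ K) :=
          mul_le_mul hQ2 hPK (by linarith) (by positivity)
        _ = _ := by
          rw [mul_comm (∑ j ∈ J, (2 * j + 1)) (Module.finrank ℚ K), pow_mul, ← mul_pow]
          congr 1
          ring)
    (fun s hs => hE s (by linarith))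
  exact ⟨u, hu.imp fun h2 => by
    obtain ⟨i, hi⟩ := exists_zero h2 hκ
    exact ⟨i, by rw [hi, Nat.cast_zero]⟩, hu1, hu2⟩

/-- bounds for the traces -/
theorem trace_le {u y : ℝ} (hy : 1 ≤ y) (hu0 : 0 ≤ u) (hu : u ≤ 4 * y ^ 2) :
    |ad u| ≤ 200 * y ^ 8 ∧ |four u| ≤ 200 * y ^ 8 ∧ |ad u * four u| ≤ 200 * y ^ 8 := by
  have h2 : 1 ≤ y ^ 2 := one_le_pow₀ hy
  have h4 : 1 ≤ y ^ 4 := one_le_pow₀ hy
  have h24 : y ^ 2 ≤ y ^ 4 := pow_le_pow_right₀ hy (by norm_num)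
  have h68 : y ^ 6 ≤ y ^ 8 := pow_le_pow_right₀ hy (by norm_num)
  have h28 : y ^ 2 ≤ y ^ 8 := pow_le_pow_right₀ hy (by norm_num)
  have h48 : y ^ 4 ≤ y ^ 8 := pow_le_pow_right₀ hy (by norm_num)
  have ha : |ad u| ≤ 5 * y ^ 2 := by
    unfold ad
    rw [abs_le]
    constructor <;> linarith
  have huu : u ^ 2 ≤ 16 * y ^ 4 := by
    calc u ^ 2 ≤ (4 * y ^ 2) ^ 2 := pow_le_pow_left₀ hu0 hu 2
      _ = 16 * y ^ 4 := by ring
  have hf : |four u| ≤ 29 * y ^ 4 := by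
    unfold four
    rw [abs_le]
    constructor <;> nlinarith
  refine ⟨by linarith, by linarith, ?_⟩
  rw [abs_mul]
  calc |ad u| * |four u| ≤ 5 * y ^ 2 * (29 * y ^ 4) := mul_le_mul ha hf (abs_nonneg _) (by positivity)
    _ = 145 * y ^ 6 := by ring
    _ ≤ 200 * y ^ 8 := by linarith

/-- unitary parameters -/
theorem dichotomy {a b : ℂ} (h0 : a ≠ 0 ∧ b ≠ 0)
    (hu : ((starRingEnd ℂ) a = a⁻¹ ∧ (starRingEnd ℂ) b = b⁻¹) ∨ (starRingEnd ℂ) a = b⁻¹) (k : ℕ) :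
    (2 < ‖a + b‖ → 4 ≤ ‖a ^ k + b ^ k‖ ^ 2) ∧ (‖a + b‖ ≤ 2 → ‖a ^ k + b ^ k‖ ^ 2 ≤ 4) := by
  have one : ∀ {z : ℂ}, z ≠ 0 → (starRingEnd ℂ) z = z⁻¹ → ‖z‖ = 1 := by
    intro z hz h
    have h1 : z * (starRingEnd ℂ) z = 1 := by rw [h, mul_inv_cancel₀ hz]
    rw [Complex.mul_conj, Complex.normSq_eq_norm_sq] at h1
    have h2 : ‖z‖ ^ 2 = 1 := by exact_mod_cast h1
    exact (pow_eq_one_iff_of_nonneg (norm_nonneg _) (by norm_num)).1 h2
  have temp : ∀ k : ℕ, ‖a‖ = 1 → ‖b‖ = 1 → ‖a ^ k + b ^ k‖ ≤ 2 := by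
    intro k ha hb
    refine (norm_add_le _ _).trans ?_
    rw [norm_pow, norm_pow, ha, hb]
    norm_num
  have hsq : ‖a ^ k + b ^ k‖ ≤ 2 → ‖a ^ k + b ^ k‖ ^ 2 ≤ 4 := by
    intro h
    nlinarith [norm_nonneg (a ^ k + b ^ k)]
  rcases hu with hu | hu
  · have ha := one h0.1 hu.1
    have hb := one h0.2 hu.2
    refine ⟨fun h => ?_, fun _ => hsq (temp k ha hb)⟩
    have h1 := temp 1 ha hb
    rw [pow_one, pow_one] at h1
    linarith
  · have hb : b = (starRingEnd ℂ) (a⁻¹) := by rw [map_inv₀, hu, inv_inv]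
    have hk : ∀ k : ℕ, ‖a ^ k + b ^ k‖ = ‖a‖ ^ k + (‖a‖ ^ k)⁻¹ := by
      intro k
      have h1 : b ^ k = (starRingEnd ℂ) ((a ^ k)⁻¹) := by rw [hb, ← map_pow, inv_pow]
      obtain ⟨z, hz⟩ : ∃ z : ℂ, z = a ^ k := ⟨_, rfl⟩
      have hz0 : z ≠ 0 := by rw [hz]; exact pow_ne_zero _ h0.1
      have hn : 0 < ‖z‖ := norm_pos_iff.2 hz0
      rw [← norm_pow, h1, ← hz]
      have h2 : z + (starRingEnd ℂ) (z⁻¹) = z * (((1 + (‖z‖ ^ 2)⁻¹ : ℝ)) : ℂ) := by
        rw [Complex.inv_def, map_mul, Complex.conj_conj, Complex.conj_ofReal, Complex.normSq_eq_norm_sq]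
        push_cast
        ring
      rw [h2, norm_mul, Complex.norm_real, Real.norm_of_nonneg (by positivity)]
      field_simp
    have hpos : 0 < ‖a‖ := norm_pos_iff.2 h0.1
    have hge : ∀ x : ℝ, 0 < x → 2 ≤ x + x⁻¹ := by
      intro x hx
      have h1 : x * x⁻¹ = 1 := mul_inv_cancel₀ hx.ne'
      have h2 : 0 < x⁻¹ := inv_pos.2 hx
      nlinarith [sq_nonneg (x - x⁻¹)]
    refine ⟨fun _ => ?_, fun h => ?_⟩
    · rw [hk]
      have := hge (‖a‖ ^ k) (by positivity)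
      nlinarith
    · have h1 := hk 1
      rw [pow_one, pow_one, pow_one] at h1
      rw [h1] at h
      have h2 : ‖a‖ * ‖a‖⁻¹ = 1 := mul_inv_cancel₀ hpos.ne'
      have h3 : ‖a‖ = 1 := by
        have h4 : (‖a‖ - 1) ^ 2 ≤ 0 := by
          have h5 : ‖a‖ * (‖a‖ + ‖a‖⁻¹) ≤ ‖a‖ * 2 := mul_le_mul_of_nonneg_left h hpos.le
          nlinarith
        have h6 := pow_eq_zero_iff (two_ne_zero) |>.1 (le_antisymm h4 (sq_nonneg _))
        linarith
      rw [hk, h3, one_pow]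
      norm_num

/-- the combination of the three functions of one character -/
theorem good_one_character {K : Type} [Field K] [NumberField K] {S : Finset (HeightOneSpectrum (𝓞 K))}
    {𝔫 : Ideal (𝓞 K)} {t s a b : Places S → ℂ} (h : WeightTwo S 𝔫 t s a b) (x y w : ℕ) :
    ∃ u : PV K → ℝ, GoodT (x * 3 + y * 5 + w * 15)
      (x * (3 * Module.finrank ℚ K) + y * (5 * Module.finrank ℚ K) + w * (15 * Module.finrank ℚ K))
      (x * (200 + 3) + y * (200 + 5) + w * (200 + 15))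
      ((|(discr K : ℝ)| * 5 ^ Module.finrank ℚ K * Ideal.absNorm 𝔫) ^ (3 * x + 5 * y + 15 * w)) u (0 < y + w) ∧
      (∀ v ∈ S, ∀ k, 0 ≤ u (v, k)) ∧
      ∀ (v : Places S) (k : ℕ), u (v.1, k) =
        (x * ad (‖a v ^ (k + 1) + b v ^ (k + 1)‖ ^ 2) + y * four (‖a v ^ (k + 1) + b v ^ (k + 1)‖ ^ 2) +
          w * (ad (‖a v ^ (k + 1) + b v ^ (k + 1)‖ ^ 2) * four (‖a v ^ (k + 1) + b v ^ (k + 1)‖ ^ 2))) /
          ((k : ℝ) + 1) := by
  obtain ⟨d, hd⟩ : ∃ d : ℕ, d = Module.finrank ℚ K := ⟨_, rfl⟩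
  obtain ⟨R, hR⟩ : ∃ R : ℝ, R = |(discr K : ℝ)| * 5 ^ Module.finrank ℚ K * Ideal.absNorm 𝔫 := ⟨_, rfl⟩
  have hbd : ∀ (v : Places S) (k : ℕ), |ad (‖a v ^ k + b v ^ k‖ ^ 2)| ≤ 200 * (Nm v.1 : ℝ) ^ k ∧
      |four (‖a v ^ k + b v ^ k‖ ^ 2)| ≤ 200 * (Nm v.1 : ℝ) ^ k ∧
      |ad (‖a v ^ k + b v ^ k‖ ^ 2) * four (‖a v ^ k + b v ^ k‖ ^ 2)| ≤ 200 * (Nm v.1 : ℝ) ^ k := by
    intro v k
    have hq : (1 : ℝ) ≤ (Nm v.1 : ℝ) := (Pool.Agent.TH861.GL3.one_lt_qq v.1).le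
    have hq0 : (0 : ℝ) < (Nm v.1 : ℝ) := by linarith
    obtain ⟨z, hz⟩ : ∃ z : ℝ, z = (Nm v.1 : ℝ) ^ (1 / 8 : ℝ) := ⟨_, rfl⟩
    have hz1 : 1 ≤ z := by rw [hz]; exact Real.one_le_rpow hq (by norm_num)
    have e : (z ^ k) ^ 8 = (Nm v.1 : ℝ) ^ k := by
      rw [← pow_mul, mul_comm, pow_mul]
      congr 1
      rw [hz, ← Real.rpow_natCast, ← Real.rpow_mul hq0.le]
      norm_num
    obtain ⟨h1, h2⟩ := h.bound v
    rw [← hz] at h1 h2
    have h3 : ‖a v ^ k + b v ^ k‖ ≤ 2 * z ^ k := by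
      refine (norm_add_le _ _).trans ?_
      rw [norm_pow, norm_pow]
      have h4 := pow_le_pow_left₀ (norm_nonneg _) h1 k
      have h5 := pow_le_pow_left₀ (norm_nonneg _) h2 k
      linarith
    have h4 : ‖a v ^ k + b v ^ k‖ ^ 2 ≤ 4 * (z ^ k) ^ 2 := by
      calc _ ≤ (2 * z ^ k) ^ 2 := pow_le_pow_left₀ (norm_nonneg _) h3 2
        _ = _ := by ring
    have h5 := trace_le (one_le_pow₀ hz1 : 1 ≤ z ^ k) (sq_nonneg _) h4
    rw [e] at h5
    exact h5
  obtain ⟨u1, g1, p1, e1⟩ := good_of_entire (J := {1}) (by decide) h.adjoint (B := 200) (by norm_num)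
    fun v k => (hbd v k).1
  obtain ⟨u2, g2, p2, e2⟩ := good_of_entire (J := {2}) (by decide) h.fourth (B := 200) (by norm_num)
    fun v k => (hbd v k).2.1
  obtain ⟨u3, g3, p3, e3⟩ := good_of_entire (J := {1, 2, 3}) (by decide) h.mixed (B := 200) (by norm_num)
    fun v k => (hbd v k).2.2
  have m1 : ∑ j ∈ ({1} : Finset ℕ), (2 * j + 1) = 3 := by decide
  have m2 : ∑ j ∈ ({2} : Finset ℕ), (2 * j + 1) = 5 := by decide
  have m3 : ∑ j ∈ ({1, 2, 3} : Finset ℕ), (2 * j + 1) = 15 := by decide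
  rw [m1, ← hR, ← hd] at g1
  rw [m2, ← hR, ← hd] at g2
  rw [m3, ← hR, ← hd] at g3
  have g := ((g1.pow x).mul (g2.pow y)).mul (g3.pow w)
  have c1 : ((3 : ℕ) : ℝ) = 3 := by norm_num
  have c2 : ((5 : ℕ) : ℝ) = 5 := by norm_num
  have c3 : ((15 : ℕ) : ℝ) = 15 := by norm_num
  have eR : (R ^ 3) ^ x * (R ^ 5) ^ y * (R ^ 15) ^ w = R ^ (3 * x + 5 * y + 15 * w) := by
    rw [← pow_mul, ← pow_mul, ← pow_mul, ← pow_add, ← pow_add]
  rw [c1, c2, c3, eR] at g
  rw [← hR, ← hd]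
  refine ⟨fun z => x * u1 z + y * u2 z + w * u3 z, g.imp fun hyw => ?_, fun v hv k => ?_, fun v k => ?_⟩
  · by_cases hw : w = 0
    · exact Or.inl (Or.inr ⟨by omega, by decide⟩)
    · exact Or.inr ⟨hw, by decide⟩
  · have := p1 v hv k
    have := p2 v hv k
    have := p3 v hv k
    positivity
  · simp only
    rw [e1, e2, e3]
    ring

/-- **Small primes with the Ramanujan-Petersson bound for most members of a family.** -/
theorem result (K : Type) [Field K] [NumberField K] (r x y w : ℕ) (hr : 0 < r) (hyw : 0 < y + w) {ε : ℝ}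
    (hε : 0 < ε) :
    ∃ A : ℝ, 0 < A ∧ ∀ (μ : ℝ), (∀ u : ℝ, 0 ≤ u → u ≤ 4 → -μ ≤ x * ad u + y * four u + w * (ad u * four u)) →
      ∀ (S : Finset (HeightOneSpectrum (𝓞 K))) (𝔫 : Ideal (𝓞 K)) (t s a b : Fin r → Places S → ℂ),
        (∀ i, WeightTwo S 𝔫 (t i) (s i) (a i) (b i)) →
        ∃ (v : Places S) (k : ℕ), 1 ≤ k ∧
          (Nm v.1 : ℝ) ^ k ≤ A * ((Ideal.absNorm 𝔫 : ℝ) ^ (r * (3 * x + 5 * y + 15 * w))) ^ (1 + ε) ∧
          (3 * x + 5 * y + 15 * w + μ) * Set.ncard {i | 2 * (Nm v.1 : ℝ) ^ (1 / 2 : ℝ) < ‖t i v‖} < μ * r := by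
  classical
  obtain ⟨d, hd⟩ : ∃ d : ℕ, d = Module.finrank ℚ K := ⟨_, rfl⟩
  obtain ⟨A, hA0, hA⟩ := landT K (r * (x * 3 + y * 5 + w * 15)) (r * (x * (3 * d) + y * (5 * d) + w * (15 * d)))
    (B := r * (x * (200 + 3) + y * (200 + 5) + w * (200 + 15))) (by positivity) hε
  obtain ⟨M, hM⟩ : ∃ M : ℕ, M = 3 * x + 5 * y + 15 * w := ⟨_, rfl⟩
  obtain ⟨C, hC⟩ : ∃ C : ℝ, C = |(discr K : ℝ)| * 5 ^ d := ⟨_, rfl⟩
  have hD0 : 0 < |(discr K : ℝ)| := abs_pos.2 (by exact_mod_cast discr_ne_zero K)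
  have hC0 : 0 < C := by rw [hC]; positivity
  refine ⟨A * (C ^ (r * M)) ^ (1 + ε), by positivity, fun μ hμ S 𝔫 t s a b h => ?_⟩
  choose u g hpos hu using fun i => good_one_character (h i) x y w
  have G := GoodT.prod r (fun _ => (|(discr K : ℝ)| * 5 ^ Module.finrank ℚ K * Ideal.absNorm 𝔫) ^
    (3 * x + 5 * y + 15 * w)) u g
  rw [← hd, ← hC, ← hM, Finset.prod_const, Finset.card_univ, Fintype.card_fin] at G
  obtain ⟨⟨v, k⟩, hneg, hle⟩ := hA _ _ (G.imp fun _ => ⟨hr.ne', hyw⟩)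
  have hvS : v ∉ S := by
    intro hv
    have : 0 ≤ ∑ i, u i (v, k) := Finset.sum_nonneg fun i _ => hpos i v hv k
    exact absurd hneg (not_lt.2 this)
  refine ⟨⟨v, hvS⟩, k + 1, by omega, hle.trans ?_, ?_⟩
  · have hN : (0 : ℝ) ≤ (Ideal.absNorm 𝔫 : ℝ) := Nat.cast_nonneg _
    have e1 : ((C * (Ideal.absNorm 𝔫 : ℝ)) ^ M) ^ r = C ^ (r * M) * (Ideal.absNorm 𝔫 : ℝ) ^ (r * M) := by
      rw [← pow_mul, mul_comm M r, mul_pow]
    rw [e1, Real.mul_rpow (by positivity) (by positivity), ← hM, mul_assoc]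
  · -- the count
    have hkpos : (0 : ℝ) < (k : ℝ) + 1 := by positivity
    have hsum : ∑ i, (x * ad (‖a i ⟨v, hvS⟩ ^ (k + 1) + b i ⟨v, hvS⟩ ^ (k + 1)‖ ^ 2) +
        y * four (‖a i ⟨v, hvS⟩ ^ (k + 1) + b i ⟨v, hvS⟩ ^ (k + 1)‖ ^ 2) +
        w * (ad (‖a i ⟨v, hvS⟩ ^ (k + 1) + b i ⟨v, hvS⟩ ^ (k + 1)‖ ^ 2) *
          four (‖a i ⟨v, hvS⟩ ^ (k + 1) + b i ⟨v, hvS⟩ ^ (k + 1)‖ ^ 2))) < 0 := by
      have h1 : ∑ i, u i (v, k) < 0 := hneg
      have h2 : ∀ i, u i (v, k) = _ := fun i => hu i ⟨v, hvS⟩ k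
      simp only [h2, ← Finset.sum_div] at h1
      exact (div_neg_iff.1 h1).elim (fun h => absurd h.2 (not_lt.2 hkpos.le)) fun h => h.1
    have hNv : (0 : ℝ) < (Nm v : ℝ) ^ (1 / 2 : ℝ) :=
      Real.rpow_pos_of_pos (Pool.Agent.TH861.GL3.qq_pos v) _
    obtain ⟨Z, hZ⟩ : ∃ Z : Finset (Fin r), Z = Finset.univ.filter
        (fun i => 2 * (Nm v : ℝ) ^ (1 / 2 : ℝ) < ‖t i ⟨v, hvS⟩‖) := ⟨_, rfl⟩
    have hZc : {i | 2 * (Nm v : ℝ) ^ (1 / 2 : ℝ) < ‖t i ⟨v, hvS⟩‖} = (Z : Set (Fin r)) := by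
      rw [hZ]
      ext i
      simp
    have hbad : ∀ i, i ∈ Z ↔ 2 < ‖a i ⟨v, hvS⟩ + b i ⟨v, hvS⟩‖ := by
      intro i
      rw [hZ, Finset.mem_filter, ((h i).roots ⟨v, hvS⟩).1, norm_mul, Complex.norm_real,
        Real.norm_of_nonneg hNv.le]
      constructor
      · rintro ⟨-, h1⟩
        by_contra hcon
        push Not at hcon
        have := mul_le_mul_of_nonneg_left hcon hNv.le
        linarith
      · intro h1
        refine ⟨Finset.mem_univ _, ?_⟩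
        have := mul_lt_mul_of_pos_left h1 hNv
        linarith
    have hterm : ∀ i, (if i ∈ Z then (M : ℝ) else -μ) ≤
        x * ad (‖a i ⟨v, hvS⟩ ^ (k + 1) + b i ⟨v, hvS⟩ ^ (k + 1)‖ ^ 2) +
        y * four (‖a i ⟨v, hvS⟩ ^ (k + 1) + b i ⟨v, hvS⟩ ^ (k + 1)‖ ^ 2) +
        w * (ad (‖a i ⟨v, hvS⟩ ^ (k + 1) + b i ⟨v, hvS⟩ ^ (k + 1)‖ ^ 2) *
          four (‖a i ⟨v, hvS⟩ ^ (k + 1) + b i ⟨v, hvS⟩ ^ (k + 1)‖ ^ 2)) := by
      intro i
      obtain ⟨d1, d2⟩ := dichotomy ((h i).ne_zero ⟨v, hvS⟩) ((h i).unitary ⟨v, hvS⟩) (k + 1)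
      obtain ⟨U, hU⟩ : ∃ U : ℝ, U = ‖a i ⟨v, hvS⟩ ^ (k + 1) + b i ⟨v, hvS⟩ ^ (k + 1)‖ ^ 2 := ⟨_, rfl⟩
      rw [← hU] at d1 d2 ⊢
      have hU0 : 0 ≤ U := by rw [hU]; positivity
      split_ifs with hi
      · have h4 := d1 ((hbad i).1 hi)
        have e1 : x * ad U + y * four U + w * (ad U * four U) =
            M + (U - 4) * (x + y * (U + 1) + w * (U ^ 2 + 4)) := by
          rw [hM]
          unfold ad four
          push_cast
          ring
        rw [e1]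
        have : 0 ≤ (U - 4) * (x + y * (U + 1) + w * (U ^ 2 + 4)) :=
          mul_nonneg (by linarith) (by positivity)
        linarith
      · exact hμ U hU0 (d2 (not_lt.1 fun h1 => hi ((hbad i).2 h1)))
    have hfin := (Finset.sum_le_sum fun i (_ : i ∈ Finset.univ) => hterm i).trans_lt hsum
    rw [Finset.sum_ite, Finset.sum_const, Finset.sum_const] at hfin
    have f1 : Finset.univ.filter (fun i : Fin r => i ∈ Z) = Z := by ext i; simp
    have f2 : (Finset.univ.filter (fun i : Fin r => i ∉ Z)).card = r - Z.card := by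
      rw [← Finset.compl_filter, f1, Finset.card_compl, Fintype.card_fin]
    have hZr : Z.card ≤ r := by
      have := Finset.card_le_univ Z
      rwa [Fintype.card_fin] at this
    rw [f1, f2, nsmul_eq_mul, nsmul_eq_mul, Nat.cast_sub hZr] at hfin
    show (3 * (x : ℝ) + 5 * y + 15 * w + μ) * Set.ncard {i | 2 * (Nm v : ℝ) ^ (1 / 2 : ℝ) < ‖t i ⟨v, hvS⟩‖} < μ * r
    rw [hZc, Set.ncard_coe_finset]
    have hM2 : (M : ℝ) = 3 * x + 5 * y + 15 * w := by
      rw [hM]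
      push_cast
      ring
    rw [← hM2]
    linarith

end Pool.Agent.Results.MP_4819b8_nt.FamiliesOfCharacters
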