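import Pool.Agent.Y719.NG.TwInt

/-!
# One modulus on the edge implies the Ramanujan-Petersson bound at every place

Let `K` be any number field and `θ` a nontrivial character of the Hecke algebra of weight 2 of `GL₂` over
`K`.  It enters through its eigenvalues `a_v = θ(T_v)`, `b_v = θ(S_v)` and two known analytic
properties: a bound towards the Ramanujan conjecture with an exponent below `1/2`, and the
Rankin-Selberg bound.  Let `B_j` be finitely many Euler products over `K` of weight at most `1`, for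
example the `L`-functions of abelian varieties over `K`, and let `m_j` be integers of any sign.
Suppose that the logarithm of `|L(θ, s)| / ∏_j |L(B_j, s)| ^ m_j` on the edge `Re s = 3/2` of absolute
convergence is concentrated: it is nearly constant on a set of positive upper density of the line.
Then `|θ(T_v)| ≤ 2 Nv^{1/2}` for every place `v` prime to the level.  No Galois representation, no
continuation, no twist and no comparison of phases or of single coefficients is used.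
-/

set_option autoImplicit false

namespace Pool.Agent.Results.MP_4819b8_nt.RamanujanFromOneModulus

open NumberField IsDedekindDomain MeasureTheory Filter Topology Polynomial

section
variable (K : Type) [Field K] [NumberField K]

/-- The eigenvalues `a_v = θ(T_v)`, `b_v = θ(S_v)` of a weight 2 character `θ` of level `𝔫` at the
places `v` prime to `𝔫`, with the analytic properties: a bound towards the Ramanujan conjecture,
`|α_v|, |β_v| ≤ Nv^{1/2 + δ}` with `δ < 1/2` for the roots of `X² - a_v X + b_v Nv`, and the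
Rankin-Selberg bound `∑_{Nv < x} |a_v|² Nv⁻¹ log Nv = O(x)`. -/
structure HeckeCharacter where
  /-- the level -/
  level : Ideal (𝓞 K)
  level_ne : level ≠ ⊥
  /-- the eigenvalue of `T_v` -/
  a : HeightOneSpectrum (𝓞 K) → ℂ
  /-- the eigenvalue of `S_v` -/
  b : HeightOneSpectrum (𝓞 K) → ℂ
  /-- the exponent in the bound towards the Ramanujan conjecture -/
  δ : ℝ
  δ_nonneg : 0 ≤ δ
  δ_lt : δ < 1 / 2
  bound : ∀ v : HeightOneSpectrum (𝓞 K), ¬ level ≤ v.asIdeal → ∀ z : ℂ,
    1 - a v * z + b v * (Ideal.absNorm v.asIdeal : ℂ) * z ^ 2 = 0 →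
      (Ideal.absNorm v.asIdeal : ℝ) ^ (-(1 / 2 + δ)) ≤ ‖z‖
  /-- the constant in the Rankin-Selberg bound -/
  C₀ : ℝ
  meanSquare : ∀ (x : ℕ) (T : Finset (HeightOneSpectrum (𝓞 K))),
    (∀ v ∈ T, ¬ level ≤ v.asIdeal ∧ Ideal.absNorm v.asIdeal < x) →
      ∑ v ∈ T, ‖a v‖ ^ 2 * (Ideal.absNorm v.asIdeal : ℝ) ^ (-1 : ℝ) *
        Real.log (Ideal.absNorm v.asIdeal) ≤ C₀ * x

/-- An Euler product over `K` of degree at most `N` and of weight at most `1`: the polynomials have
constant term `1`, degree at most `N`, and inverse roots at most `Nv^{1/2}` in absolute value; for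
example the `L`-function of an abelian variety of dimension `N / 2`. -/
structure WeightOne (N : ℕ) where
  /-- the polynomials -/
  P : HeightOneSpectrum (𝓞 K) → ℂ[X]
  coeff_zero : ∀ v, (P v).coeff 0 = 1
  natDegree_le : ∀ v, (P v).natDegree ≤ N
  bound : ∀ v, ∀ z : ℂ, (P v).eval z = 0 →
    (Ideal.absNorm v.asIdeal : ℝ) ^ (-(1 / 2) : ℝ) ≤ ‖z‖

variable {K}

open Classical in
/-- The Euler factors of `θ`: `1 - a_v X + b_v Nv X²`, and `1` for `v` dividing the level. -/
noncomputable def HeckeCharacter.poly (θ : HeckeCharacter K)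
    (v : HeightOneSpectrum (𝓞 K)) : ℂ[X] :=
  if θ.level ≤ v.asIdeal then 1 else
    1 - C (θ.a v) * X + C (θ.b v * (Ideal.absNorm v.asIdeal : ℂ)) * X ^ 2

/-- The Euler product `∏_v P_v(Nv^{-s})⁻¹`. -/
noncomputable def L (P : HeightOneSpectrum (𝓞 K) → ℂ[X]) (s : ℂ) : ℂ :=
  ∏' v : HeightOneSpectrum (𝓞 K), ((P v).eval ((Ideal.absNorm v.asIdeal : ℂ) ^ (-s)))⁻¹

/-- The limit of `|L(3/2 + σ + iτ)|` for `σ → 0`, `σ > 0`. -/
noncomputable def edgeAbs (P : HeightOneSpectrum (𝓞 K) → ℂ[X]) (τ : ℝ) : ℝ :=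
  limUnder (𝓝[>] (0 : ℝ)) fun σ : ℝ => ‖L P (3 / 2 + σ + τ * Complex.I)‖

end

/-- The values of `f` are concentrated: there is `δ > 0` such that for every `ε > 0` there are
arbitrarily large `T` and a real number `x` with `|f - x| < ε` on a subset of `(0, T]` of measure at
least `δ T`. -/
def Concentrated (f : ℝ → ℝ) : Prop :=
  ∃ δ : ℝ, 0 < δ ∧ ∀ ε : ℝ, 0 < ε → ∃ᶠ T : ℝ in atTop, ∃ x : ℝ,
    ENNReal.ofReal (δ * T) ≤ volume {τ | τ ∈ Set.Ioc 0 T ∧ |f τ - x| < ε}

/-- **One modulus implies the Ramanujan-Petersson bound.**  Let `K` be a number field, `θ` a weight 2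
character, `B_j` finitely many Euler products over `K` of weight at most `1` and `m_j` integers.  If the
logarithm of `|L(θ, s)| / ∏_j |L(B_j, s)| ^ m_j` on the line `Re s = 3/2` is concentrated, then
`|θ(T_v)| ≤ 2 Nv^{1/2}` for every place `v` not dividing the level. -/
theorem result (K : Type) [Field K] [NumberField K] (θ : HeckeCharacter K)
    (κ : Type) [Fintype κ] (N : κ → ℕ) (m : κ → ℤ) (B : ∀ j, WeightOne K (N j))
    (hc : Concentrated fun τ => Real.log (edgeAbs θ.poly τ) -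
      ∑ j, m j * Real.log (edgeAbs (B j).P τ)) (v : HeightOneSpectrum (𝓞 K))
    (hv : ¬ θ.level ≤ v.asIdeal) :
    ‖θ.a v‖ ≤ 2 * (Ideal.absNorm v.asIdeal : ℝ) ^ (1 / 2 : ℝ) := by
  classical
  have he : ∀ (P : HeightOneSpectrum (𝓞 K) → ℂ[X]) (τ : ℝ),
      Pool.Agent.Y719.EL.N.eA 1 P (fun _ => 1) τ = edgeAbs P τ := by
    intro P τ
    have hL : ∀ s, Pool.Agent.Y719.EL.N.LS P (fun _ => 1) s = L P s := by
      intro s
      unfold Pool.Agent.Y719.EL.N.LS L
      refine tprod_congr fun v => ?_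
      rw [one_mul]
      rfl
    unfold Pool.Agent.Y719.EL.N.eA edgeAbs
    congr 1
    funext σ
    rw [hL]
    congr 2
    push_cast
    ring
  -- the character
  have hform : Pool.Agent.Y719.EL.N.Typ (Pool.Agent.Y719.EL.N.nz 1 θ.poly) 2 := by
    have h1 : θ.poly = Pool.Agent.Y719.EL.N.FP (fun v => if θ.level ≤ v.asIdeal then 0 else θ.a v)
        (fun v => if θ.level ≤ v.asIdeal then 0 else
          θ.b v * (Ideal.absNorm v.asIdeal : ℂ)) := by
      funext v
      unfold HeckeCharacter.poly Pool.Agent.Y719.EL.N.FP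
      by_cases h : θ.level ≤ v.asIdeal
      · simp only [if_pos h]
        simp
      · simp only [if_neg h]
    rw [h1]
    refine Pool.Agent.Y719.EL.N.typ_form (C₀ := θ.C₀) θ.δ_lt (fun v z hz => ?_) fun x T hT => ?_
    · by_cases h : θ.level ≤ v.asIdeal
      · rw [if_pos h, if_pos h] at hz
        simp at hz
      · rw [if_neg h, if_neg h] at hz
        exact θ.bound v h z hz
    · have h2 := θ.meanSquare x (T.filter fun v => ¬ θ.level ≤ v.asIdeal) fun v hv =>
        ⟨(Finset.mem_filter.1 hv).2, hT v (Finset.mem_filter.1 hv).1⟩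
      refine le_trans (le_of_eq ?_) h2
      rw [Finset.sum_filter]
      refine Finset.sum_congr rfl fun v _ => ?_
      by_cases h : θ.level ≤ v.asIdeal
      · rw [if_pos h, if_neg (not_not.2 h)]
        simp
      · rw [if_neg h, if_pos h]
        rfl
  have hB : ∀ j, Pool.Agent.Y719.EL.N.Typ (Pool.Agent.Y719.EL.N.nz 1 (B j).P) (N j) := fun j =>
    Pool.Agent.Y719.EL.N.typ_weight (B j).coeff_zero (B j).natDegree_le fun v z hz =>
      le_trans (le_of_eq rfl) ((B j).bound v z hz)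
  -- the prime number below `v`
  obtain ⟨q, hq, hvq⟩ : ∃ (q : ℕ) (hq : q.Prime),
      Pool.Agent.H921R2.TatePole.below v = ⟨q, hq⟩ :=
    ⟨(Pool.Agent.H921R2.TatePole.below v : ℕ), (Pool.Agent.H921R2.TatePole.below v).2, rfl⟩
  have key := Pool.Agent.Y719.NG.GP_int (m := m) hform hB (by
    have h1 := hc
    simp_rw [← he, Pool.Agent.Y719.EL.N.eA_eq, Pool.Agent.Y719.NG.tws_one] at h1
    exact h1) hq
  rw [Pool.Agent.Y719.EL.N.GP_eq _ hq, Pool.Agent.Y719.EL.N.GP_eq _ hq] at key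
  have hpos : ∀ w : HeightOneSpectrum (𝓞 K), (0 : ℝ) < Ideal.absNorm w.asIdeal := fun w =>
    Pool.Agent.Y719.EL.N.nm_real_pos w
  -- the roots
  have hroot : ∀ z : ℂ, (θ.poly v).eval z = 0 →
      (Ideal.absNorm v.asIdeal : ℝ) ^ (-(1 / 2) : ℝ) ≤ ‖z‖ := by
    intro z hz
    have hdeg : 0 < Pool.Agent.H921R2.TatePole.deg v :=
      (Pool.Agent.Y719.EL.N.below_val hq ⟨v, hvq⟩).2
    have hr : (0 : ℝ) < (Ideal.absNorm v.asIdeal : ℝ) ^ (-(1 / 2) : ℝ) :=
      Real.rpow_pos_of_pos (hpos v) _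
    obtain ⟨x, hx⟩ := IsAlgClosed.exists_pow_nat_eq
      ((((Ideal.absNorm v.asIdeal : ℝ) ^ (-(1 / 2) : ℝ) : ℝ) : ℂ)⁻¹ * z) hdeg
    have hnz : ∀ (P : HeightOneSpectrum (𝓞 K) → ℂ[X]) (w : HeightOneSpectrum (𝓞 K)) (y : ℂ),
        (Pool.Agent.Y719.EL.N.nz 1 P w).eval y =
          (P w).eval ((((Ideal.absNorm w.asIdeal : ℝ) ^ (-(1 / 2) : ℝ) : ℝ) : ℂ) * y) := by
      intro P w y
      unfold Pool.Agent.Y719.EL.N.nz
      rw [Pool.Agent.Y719.EL.N.comp_C_mul_X_eval]
      rfl
    have h0 : (Pool.Agent.Y719.EL.N.nz 1 θ.poly v).eval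
        (x ^ Pool.Agent.H921R2.TatePole.deg v) = 0 := by
      rw [hnz, hx, ← mul_assoc, mul_inv_cancel₀ (by exact_mod_cast hr.ne'), one_mul, hz]
    have h1 := congrArg (fun P : ℂ[X] => P.eval x) key
    beta_reduce at h1
    rw [eval_prod, eval_prod, Finset.prod_eq_zero (Finset.mem_univ ⟨v, hvq⟩)] at h1
    · obtain ⟨w, -, hw⟩ := Finset.prod_eq_zero_iff.1 h1.symm
      rw [expand_eval, eval_prod] at hw
      obtain ⟨j, -, hj⟩ := Finset.prod_eq_zero_iff.1 hw
      rw [eval_pow] at hj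
      have hj' := not_not.1 fun hne => pow_ne_zero _ hne hj
      rw [hnz] at hj'
      have h2 := (B j).bound w.1 _ hj'
      have hr' : (0 : ℝ) < (Ideal.absNorm w.1.asIdeal : ℝ) ^ (-(1 / 2) : ℝ) :=
        Real.rpow_pos_of_pos (hpos w.1) _
      rw [norm_mul, Complex.norm_real, Real.norm_of_nonneg hr'.le, norm_pow] at h2
      have h3 : 1 ≤ ‖x‖ ^ Pool.Agent.H921R2.TatePole.deg w.1 := by
        by_contra hcon
        push Not at hcon
        nlinarith
      have h4 : 1 ≤ ‖x‖ := by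
        by_contra hcon
        push Not at hcon
        have hdw : 0 < Pool.Agent.H921R2.TatePole.deg w.1 :=
          (Pool.Agent.Y719.EL.N.below_val hq w).2
        exact absurd h3 (not_le.2 (pow_lt_one₀ (norm_nonneg _) hcon hdw.ne'))
      have h5 : 1 ≤ ‖x‖ ^ Pool.Agent.H921R2.TatePole.deg v := one_le_pow₀ h4
      rw [← norm_pow, hx, norm_mul, norm_inv, Complex.norm_real, Real.norm_of_nonneg hr.le,
        inv_mul_eq_div, le_div_iff₀ hr, one_mul] at h5
      exact h5
    · rw [expand_eval, eval_mul, h0, zero_mul]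
  -- the eigenvalue
  set q' : ℝ := (Ideal.absNorm v.asIdeal : ℝ) ^ (1 / 2 : ℝ) with hq'
  have hq'0 : 0 < q' := Real.rpow_pos_of_pos (hpos v) _
  have hinv : (Ideal.absNorm v.asIdeal : ℝ) ^ (-(1 / 2) : ℝ) = q'⁻¹ := by
    rw [Real.rpow_neg (hpos v).le]
  set c : ℂ := θ.b v * (Ideal.absNorm v.asIdeal : ℂ) with hcdef
  have hpoly : θ.poly v = 1 - C (θ.a v) * X + C c * X ^ 2 := if_neg hv
  have hα : ∀ α : ℂ, α ^ 2 - θ.a v * α + c = 0 → ‖α‖ ≤ q' := by
    intro α h
    by_cases hα0 : α = 0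
    · rw [hα0, norm_zero]
      exact hq'0.le
    · have h1 : (θ.poly v).eval α⁻¹ = 0 := by
        rw [hpoly]
        simp only [eval_add, eval_sub, eval_one, eval_mul, eval_C, eval_X, eval_pow]
        have h2 : 1 - θ.a v * α⁻¹ + c * α⁻¹ ^ 2 = (α ^ 2 - θ.a v * α + c) * α⁻¹ ^ 2 := by
          field_simp
        rw [h2, h, zero_mul]
      have h2 := hroot _ h1
      rw [hinv, norm_inv] at h2
      exact (inv_le_inv₀ hq'0 (norm_pos_iff.2 hα0)).1 h2
  obtain ⟨α, hα1⟩ : ∃ α : ℂ, α ^ 2 - θ.a v * α + c = 0 := by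
    obtain ⟨s, hs⟩ := IsAlgClosed.exists_pow_nat_eq (θ.a v ^ 2 - 4 * c) (n := 2) two_pos
    refine ⟨(θ.a v + s) / 2, ?_⟩
    have : s ^ 2 = θ.a v ^ 2 - 4 * c := hs
    linear_combination this / 4
  have hβ1 : (θ.a v - α) ^ 2 - θ.a v * (θ.a v - α) + c = 0 := by
    linear_combination hα1
  calc ‖θ.a v‖ = ‖α + (θ.a v - α)‖ := by rw [add_sub_cancel]
    _ ≤ ‖α‖ + ‖θ.a v - α‖ := norm_add_le _ _
    _ ≤ q' + q' := add_le_add (hα _ hα1) (hα _ hβ1)
    _ = 2 * q' := by ring

end Pool.Agent.Results.MP_4819b8_nt.RamanujanFromOneModulus
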